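import Pool.Agent.W851.BE.Stm

/-! BE-N0: discs with a preimage of their boundary point contain a fixed point or a pole -/

set_option autoImplicit false

open Polynomial

namespace Pool.Agent.W701.BE.N0

open Pool.Agent.W95.BK Pool.Agent.W851.BE

universe u

theorem nIn_eq_zero {K : Type u} [NontriviallyNormedField K] {h : K[X]} (hh : h ≠ 0) {S : Set K}
    (hS : ∀ w ∈ S, h.eval w ≠ 0) : nIn h S = 0 := by
  classical
  unfold nIn
  rw [Multiset.card_eq_zero, Multiset.filter_eq_nil]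
  intro w hw hwS
  exact hS w hwS ((mem_roots hh).1 hw)

theorem main : S_NWI.{u} → S_NPOL.{u} → S_N0.{u} := by
  intro hNWI hNPOL K _ _ _ f z t ht hN
  by_contra hcon
  push Not at hcon
  obtain ⟨⟨hM0, hNw, -, -, -, hle, hlt, -⟩, -⟩ := hNWI K f z t ht
  set M := Mx f z t with hM
  obtain ⟨j, hj⟩ : ∃ j, Nw f z t = j + 1 := ⟨Nw f z t - 1, by omega⟩
  rw [hj] at hNw hlt
  have hQ0 : f.Q ≠ 0 := by
    intro h0
    obtain ⟨a, b, hab⟩ := f.cop
    rw [h0, mul_zero, add_zero] at hab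
    have h1 : IsUnit f.P := IsUnit.of_mul_eq_one a (by rw [mul_comm]; exact hab)
    have h2 := natDegree_eq_zero_of_isUnit h1
    have h3 := f.deg_eq
    have h4 := f.pos
    rw [h0, h2, natDegree_zero, max_self] at h3
    omega
  obtain ⟨-, q2, q3, -⟩ := hNPOL K f.Q z t hQ0 ht
  rw [nIn_eq_zero (S := {w | ‖w - z‖ < t}) hQ0 (fun w hw => (hcon w hw).2)] at q3
  simp only [pow_zero, mul_one] at q3
  have htp : ∀ i : ℕ, 0 < t ^ i := fun i => pow_pos ht i
  -- the values at the index `0`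
  have h0lt := hlt 0 (Nat.succ_pos j)
  unfold vI at h0lt hNw
  rw [pow_zero, mul_one] at h0lt
  have hp0 := (le_max_left _ _).trans_lt h0lt
  have hq0 := (le_max_right _ _).trans_lt h0lt
  -- the index `j + 1`
  have hqj : t * ‖(taylor z f.Q).coeff (j + 1)‖ * t ^ (j + 1) < M := by
    have h1 := q2 (j + 1)
    rw [← q3] at h1
    calc t * ‖(taylor z f.Q).coeff (j + 1)‖ * t ^ (j + 1)
        = t * (‖(taylor z f.Q).coeff (j + 1)‖ * t ^ (j + 1)) := by ring
      _ ≤ t * ‖(taylor z f.Q).coeff 0‖ := by gcongr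
      _ < M := hq0
  have hpj : ‖(taylor z (f.P - C z * f.Q)).coeff (j + 1)‖ * t ^ (j + 1) = M := by
    rcases max_cases ‖(taylor z (f.P - C z * f.Q)).coeff (j + 1)‖
      (t * ‖(taylor z f.Q).coeff (j + 1)‖) with h | h
    · rw [← h.1]
      exact hNw
    · rw [h.1] at hNw
      exact absurd hNw hqj.ne
  have hqj' : ‖(taylor z f.Q).coeff j‖ * t ^ (j + 1) < M := by
    have h1 := hlt j (Nat.lt_succ_self j)
    unfold vI at h1
    refine lt_of_le_of_lt ?_ h1
    calc ‖(taylor z f.Q).coeff j‖ * t ^ (j + 1)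
        = (t * ‖(taylor z f.Q).coeff j‖) * t ^ j := by ring
      _ ≤ _ := by gcongr; exact le_max_right _ _
  -- the polynomial `P - X Q`
  have hF : taylor z (f.P - X * f.Q) = taylor z (f.P - C z * f.Q) - X * taylor z f.Q := by
    have h1 : f.P - X * f.Q = (f.P - C z * f.Q) - (X - C z) * f.Q := by ring
    rw [h1, map_sub, taylor_mul, map_sub (taylor z) X (C z), taylor_X, taylor_C]
    ring
  have hF0 : (taylor z (f.P - X * f.Q)).coeff 0 = (taylor z (f.P - C z * f.Q)).coeff 0 := by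
    rw [hF, coeff_sub, coeff_X_mul_zero, sub_zero]
  have hFj : ‖(taylor z (f.P - X * f.Q)).coeff (j + 1)‖ * t ^ (j + 1) = M := by
    rw [hF, coeff_sub, coeff_X_mul]
    have h1 : ‖(taylor z f.Q).coeff j‖ < ‖(taylor z (f.P - C z * f.Q)).coeff (j + 1)‖ := by
      have h2 := hqj'
      rw [← hpj] at h2
      exact lt_of_mul_lt_mul_right h2 (htp _).le
    rw [sub_eq_add_neg, IsUltrametricDist.norm_add_eq_max_of_norm_ne_norm (by
      rw [norm_neg]
      exact h1.ne'), norm_neg, max_eq_left h1.le]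
    exact hpj
  have hFne : f.P - X * f.Q ≠ 0 := by
    intro h0
    rw [h0, map_zero, coeff_zero, norm_zero, zero_mul] at hFj
    exact hM0.ne hFj
  obtain ⟨-, g2, g3, -⟩ := hNPOL K (f.P - X * f.Q) z t hFne ht
  rw [nIn_eq_zero (S := {w | ‖w - z‖ < t}) hFne (fun w hw => (hcon w hw).1)] at g3
  simp only [pow_zero, mul_one] at g3
  have h1 := g2 (j + 1)
  rw [hFj, ← g3, hF0] at h1
  exact absurd hp0 (not_lt.2 h1)

end Pool.Agent.W701.BE.N0
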